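import Pool.Agent.Rosen.Real

set_option autoImplicit false

/-! Sums in `(a, a+w]` when there is no element in `(a, a+w]`. -/

namespace Pool.Agent.Rosen

open Finset Real

variable {A : ℕ → Prop} [DecidablePred A]

/-- number of `t in A`, `t <= a` with `a < v + t <= a + w` -/
def f (A : ℕ → Prop) [DecidablePred A] (a w v : ℕ) : ℕ :=
  ((S A a).filter (fun t => a < v + t ∧ v + t ≤ a + w)).card

lemma new_sums (hg : Greedy A) {a w : ℕ} (ha : A a) (ha1 : 1 ≤ a)
    (hgap : ∀ t, a < t → t ≤ a + w → ¬ A t) :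
    2 * R A (a + w) ≤ 2 * a + ∑ v ∈ S A a, f A a w v + cA A a := by
  classical
  set Sa := S A a with hSa
  set T1 := (Sa ×ˢ Sa).filter (fun p => p.2 ≤ p.1 ∧ a < p.1 + p.2 ∧ p.1 + p.2 ≤ a + w) with hT1
  set T2 := (Sa ×ˢ Sa).filter (fun p => p.1 ≤ p.2 ∧ a < p.1 + p.2 ∧ p.1 + p.2 ≤ a + w) with hT2
  have h12 : T1.card = T2.card := by
    apply Finset.card_bij (fun p _ => (p.2, p.1))
    · intro p hp
      simp only [hT1, Finset.mem_filter, Finset.mem_product] at hp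
      simp only [hT2, Finset.mem_filter, Finset.mem_product]
      exact ⟨⟨hp.1.2, hp.1.1⟩, hp.2.1, by omega, by omega⟩
    · rintro ⟨a, b⟩ _ ⟨c, d⟩ _ h
      simp only [Prod.mk.injEq] at h
      exact Prod.ext h.2 h.1
    · rintro ⟨x, y⟩ hp
      simp only [hT2, Finset.mem_filter, Finset.mem_product] at hp
      refine ⟨(y, x), ?_, rfl⟩
      simp only [hT1, Finset.mem_filter, Finset.mem_product]
      exact ⟨⟨hp.1.2, hp.1.1⟩, hp.2.1, by omega, by omega⟩
  have hun : (T1 ∪ T2).card = ∑ v ∈ Sa, f A a w v := by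
    have : T1 ∪ T2 = (Sa ×ˢ Sa).filter (fun p => a < p.1 + p.2 ∧ p.1 + p.2 ≤ a + w) := by
      ext p
      simp only [hT1, hT2, Finset.mem_union, Finset.mem_filter]
      constructor
      · rintro (h | h) <;> exact ⟨h.1, h.2.2⟩
      · intro h
        rcases le_total p.2 p.1 with h' | h'
        · exact Or.inl ⟨h.1, h', h.2⟩
        · exact Or.inr ⟨h.1, h', h.2⟩
    rw [this, Finset.card_filter, Finset.sum_product]
    apply Finset.sum_congr rfl
    intro v _
    rw [f, Finset.card_filter]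
  have hint : (T1 ∩ T2).card ≤ Sa.card := by
    have : T1 ∩ T2 ⊆ Sa.image (fun s => (s, s)) := by
      rintro ⟨x, y⟩ hp
      simp only [hT1, hT2, Finset.mem_inter, Finset.mem_filter, Finset.mem_product] at hp
      have : x = y := le_antisymm hp.2.2.1 hp.1.2.1
      subst this
      rw [Finset.mem_image]
      exact ⟨x, hp.1.1.1, rfl⟩
    exact (Finset.card_le_card this).trans Finset.card_image_le
  have hci := Finset.card_union_add_card_inter T1 T2
  have hsub : P A (a + w) ⊆ P A a ∪ T1 := by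
    intro p hp
    rw [mem_P] at hp
    rw [Finset.mem_union, mem_P]
    obtain ⟨h1, h2, h3, h4, h5⟩ := hp
    by_cases h : p.1 + p.2 ≤ a
    · exact Or.inl ⟨h1, h2, h3, h4, h⟩
    · right
      have hp1 : p.1 ≤ a := by
        by_contra h6
        exact hgap p.1 (by omega) (by omega) h1
      simp only [hT1, hSa, Finset.mem_filter, Finset.mem_product, mem_S]
      exact ⟨⟨⟨hp1, h1⟩, by omega, h2⟩, h3, by omega, h5⟩
  have hR : R A (a + w) ≤ a + T1.card := by
    have h1 := Finset.card_le_card hsub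
    have h2 := Finset.card_union_le (P A a) T1
    have h3 : (P A a).card = a := hg.eq a ha ha1
    calc R A (a + w) = (P A (a + w)).card := rfl
      _ ≤ _ := h1
      _ ≤ _ := h2
      _ = _ := by rw [h3]
  have hSac : Sa.card = cA A a := rfl
  omega

lemma f_small (hg : Greedy A) {a w v : ℕ} (hv : 2 * v ≤ a) : (f A a w v : ℝ) ≤ √(2 * (v : ℝ)) := by
  apply le_sqrt_of_mul
  have h := window (A := A) hg (x := a - v) (w := v) (by omega)
  have hsub : (S A a).filter (fun t => a < v + t ∧ v + t ≤ a + w)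
      ⊆ (Finset.Ioc (a - v) (a - v + v)).filter A := by
    intro t ht
    rw [Finset.mem_filter, mem_S] at ht
    rw [Finset.mem_filter, Finset.mem_Ioc]
    exact ⟨⟨by omega, by omega⟩, ht.1.2⟩
  have hc := Finset.card_le_card hsub
  exact (Nat.mul_le_mul hc (Nat.succ_le_succ hc)).trans h

lemma f_mid (hg : Greedy A) {a w v : ℕ} (hv : v + w ≤ a) : (f A a w v : ℝ) ≤ √(2 * (w : ℝ)) := by
  apply le_sqrt_of_mul
  have h := window (A := A) hg (x := a - v) (w := w) (by omega)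
  have hsub : (S A a).filter (fun t => a < v + t ∧ v + t ≤ a + w)
      ⊆ (Finset.Ioc (a - v) (a - v + w)).filter A := by
    intro t ht
    rw [Finset.mem_filter, mem_S] at ht
    rw [Finset.mem_filter, Finset.mem_Ioc]
    exact ⟨⟨by omega, by omega⟩, ht.1.2⟩
  have hc := Finset.card_le_card hsub
  exact (Nat.mul_le_mul hc (Nat.succ_le_succ hc)).trans h

lemma f_large (hg : Greedy A) {a w v : ℕ} (hv : v ≤ a) (hw : 1 ≤ w) :
    (f A a w v : ℝ) ≤ 2 * √(((a - v : ℕ) : ℝ) + (w : ℝ)) - √(2 * ((a - v : ℕ) : ℝ)) + 1 / 2 := by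
  have h1 := cA_le hg (x := (a - v) + w) (by omega)
  have h2 := cA_ge hg (a - v)
  have h3 : f A a w v + cA A (a - v) ≤ cA A ((a - v) + w) := by
    rw [f, cA, ← Finset.card_union_of_disjoint]
    · apply Finset.card_le_card
      intro t ht
      rw [Finset.mem_union, Finset.mem_filter, mem_S, mem_S] at ht
      rw [mem_S]
      rcases ht with ht | ht
      · exact ⟨by omega, ht.1.2⟩
      · exact ⟨by omega, ht.2⟩
    · rw [Finset.disjoint_left]
      intro t ht ht'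
      rw [Finset.mem_filter] at ht
      rw [mem_S] at ht'
      omega
  have h4 : (f A a w v : ℝ) + (cA A (a - v) : ℝ) ≤ (cA A ((a - v) + w) : ℝ) := by exact_mod_cast h3
  push_cast at h1
  linarith

/-- The cost of the elements close to `a`. -/
lemma cost (hg : Greedy A) {a w : ℕ} (ha : A a) (haw : 2 * w ≤ a) :
    ∑ v ∈ (Finset.Ioc (a - w) a).filter A,
      (2 * √(((a - v : ℕ) : ℝ) + (w : ℝ)) - √(2 * ((a - v : ℕ) : ℝ)) + 1 / 2 - √(2 * (w : ℝ)))
      ≤ (√2 - 1) * w + √(2 * (w : ℝ)) := by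
  classical
  set F := (Finset.Ioc (a - w) a).filter A with hF
  set m := F.card with hm
  have hmw : (m : ℝ) ≤ √(2 * (w : ℝ)) := by
    apply le_sqrt_of_mul
    have h := window (A := A) hg (x := a - w) (w := w) (by omega)
    have : a - w + w = a := by omega
    rw [this] at h
    exact h
  have hr0 : 0 ≤ √(2 : ℝ) := Real.sqrt_nonneg _
  have hr2 : √(2 : ℝ) ^ 2 = 2 := Real.sq_sqrt (by norm_num)
  have hr1 : 1 < √(2 : ℝ) := by nlinarith
  have hr3 : √(2 : ℝ) < 3 / 2 := by nlinarith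
  have hq0 : 0 ≤ √(w : ℝ) := Real.sqrt_nonneg _
  have hq2 : √(w : ℝ) ^ 2 = w := Real.sq_sqrt (Nat.cast_nonneg w)
  have hqw : √(2 * (w : ℝ)) = √2 * √(w : ℝ) := Real.sqrt_mul (by norm_num) _
  have hterm : ∀ v ∈ F,
      2 * √(((a - v : ℕ) : ℝ) + (w : ℝ)) - √(2 * ((a - v : ℕ) : ℝ)) + 1 / 2 - √(2 * (w : ℝ))
      ≤ (2 - √2) * √(w : ℝ) + 1 / 2 + (√2 - 1)
        - (√2 - 1) * ((F.filter (fun t => v ≤ t)).card : ℝ) := by
    intro v hv
    have hv' := hv
    rw [hF, Finset.mem_filter, Finset.mem_Ioc] at hv'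
    have hyw : ((a - v : ℕ) : ℝ) ≤ (w : ℝ) := by
      have : a - v ≤ w := by omega
      exact_mod_cast this
    have hch := chord (y := ((a - v : ℕ) : ℝ)) (w := (w : ℝ)) (Nat.cast_nonneg _) hyw
    have h6 : F.filter (fun t => v ≤ t) = (Finset.Icc v a).filter A := by
      ext t
      simp only [hF, Finset.mem_filter, Finset.mem_Icc, Finset.mem_Ioc]
      constructor
      · rintro ⟨⟨⟨a, b⟩, c⟩, e⟩
        exact ⟨⟨e, b⟩, c⟩
      · rintro ⟨⟨a, b⟩, c⟩
        exact ⟨⟨⟨by omega, b⟩, c⟩, a⟩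
    have h7 := cluster hg ha (a - v) v rfl hv'.2 hv'.1.2 (by omega)
    rw [← h6] at h7
    set r := (F.filter (fun t => v ≤ t)).card with hr
    have hr1' : 1 ≤ r := by
      rw [hr]
      exact Finset.card_pos.mpr ⟨v, Finset.mem_filter.mpr ⟨hv, le_rfl⟩⟩
    have h8 : (r : ℝ) * ((r : ℝ) + 1) ≤ 2 * (((a - v : ℕ) : ℝ) + 1) := by exact_mod_cast h7
    have h9 : (r : ℝ) - 1 ≤ √(2 * ((a - v : ℕ) : ℝ)) := by
      apply Real.le_sqrt_of_sq_le
      have : (1 : ℝ) ≤ r := by exact_mod_cast hr1'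
      nlinarith
    rw [hqw]
    have h10 : (√2 - 1) * ((r : ℝ) - 1) ≤ (√2 - 1) * √(2 * ((a - v : ℕ) : ℝ)) :=
      mul_le_mul_of_nonneg_left h9 (by linarith)
    nlinarith
  have hsum := Finset.sum_le_sum hterm
  refine hsum.trans ?_
  rw [Finset.sum_sub_distrib, Finset.sum_const, nsmul_eq_mul, ← Finset.mul_sum]
  have hrk := sum_rank F
  have hrk' : 2 * (∑ s ∈ F, ((F.filter (fun t => s ≤ t)).card : ℝ)) = (m : ℝ) * ((m : ℝ) + 1) := by
    have : ((2 * ∑ s ∈ F, (F.filter (fun t => s ≤ t)).card : ℕ) : ℝ) = ((F.card * (F.card + 1) : ℕ) : ℝ) := by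
      exact_mod_cast hrk
    push_cast at this
    rw [← hm] at this
    exact this
  set Sr := ∑ s ∈ F, ((F.filter (fun t => s ≤ t)).card : ℝ) with hSr
  rw [← hm]
  have hm0 : (0 : ℝ) ≤ m := Nat.cast_nonneg m
  have hSr2 : Sr = (m : ℝ) * ((m : ℝ) + 1) / 2 := by linarith
  rw [hSr2]
  -- main inequality
  have hkey : 0 ≤ (√2 - 1) * (√(w : ℝ) - √2 / 2 * (m : ℝ)) ^ 2 :=
    mul_nonneg (by linarith) (sq_nonneg _)
  have hexp : (√2 - 1) * (√(w : ℝ) - √2 / 2 * (m : ℝ)) ^ 2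
      = (√2 - 1) * √(w : ℝ) ^ 2 - (√2 ^ 2 - √2) * (m : ℝ) * √(w : ℝ)
        + (√2 - 1) * √2 ^ 2 / 4 * (m : ℝ) ^ 2 := by ring
  rw [hexp, hr2, hq2] at hkey
  have hmw2 : √2 / 2 * (m : ℝ) ≤ √(2 * (w : ℝ)) := by
    have : √2 / 2 * (m : ℝ) ≤ 1 * (m : ℝ) :=
      mul_le_mul_of_nonneg_right (by linarith) hm0
    linarith
  nlinarith

end Pool.Agent.Rosen
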