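import Mathlib

set_option autoImplicit false

/-!
Combinatorial facts on sets `A` of natural numbers whose pair counting function
`R n = #{(s,t) : s,t in A, t <= s, 1 <= s, s + t <= n}` satisfies `n <= R n` for all `n` and
`R a = a`, `R (a-1) = a-1` for all positive `a` in `A` (Rosen's greedy sequence).
-/

namespace Pool.Agent.Rosen

open Finset

variable (A : ℕ → Prop) [DecidablePred A]

/-- Elements up to `n`. -/
def S (n : ℕ) : Finset ℕ := (Finset.range (n + 1)).filter A

/-- Number of elements up to `n`. -/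
def cA (n : ℕ) : ℕ := (S A n).card

/-- Pairs of elements with sum at most `n`. -/
def P (n : ℕ) : Finset (ℕ × ℕ) :=
  ((S A n) ×ˢ (S A n)).filter (fun p => p.2 ≤ p.1 ∧ 1 ≤ p.1 ∧ p.1 + p.2 ≤ n)

/-- Number of pairs. -/
def R (n : ℕ) : ℕ := (P A n).card

/-- The greedy conditions. -/
structure Greedy : Prop where
  zero : A 0
  one : A 1
  ge : ∀ n, n ≤ R A n
  eq : ∀ a, A a → 1 ≤ a → R A a = a
  eqp : ∀ a, A a → 1 ≤ a → R A (a - 1) = a - 1

variable {A}

lemma mem_S {n t : ℕ} : t ∈ S A n ↔ t ≤ n ∧ A t := by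
  simp [S, Nat.lt_succ_iff]

lemma mem_P {n : ℕ} {p : ℕ × ℕ} :
    p ∈ P A n ↔ A p.1 ∧ A p.2 ∧ p.2 ≤ p.1 ∧ 1 ≤ p.1 ∧ p.1 + p.2 ≤ n := by
  simp only [P, Finset.mem_filter, Finset.mem_product, mem_S]
  constructor
  · rintro ⟨⟨⟨_, h1⟩, _, h2⟩, h3, h4, h5⟩
    exact ⟨h1, h2, h3, h4, h5⟩
  · rintro ⟨h1, h2, h3, h4, h5⟩
    exact ⟨⟨⟨by omega, h1⟩, by omega, h2⟩, h3, h4, h5⟩

/-- The number of pairs `t <= s` of a finite set. -/
lemma card_pairs (F : Finset ℕ) :
    2 * ((F ×ˢ F).filter (fun p => p.2 ≤ p.1)).card = F.card * (F.card + 1) := by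
  classical
  set T1 := (F ×ˢ F).filter (fun p => p.2 ≤ p.1) with hT1
  set T2 := (F ×ˢ F).filter (fun p => p.1 ≤ p.2) with hT2
  have h12 : T1.card = T2.card := by
    apply Finset.card_bij (fun p _ => (p.2, p.1))
    · intro p hp
      simp only [hT1, Finset.mem_filter, Finset.mem_product] at hp
      simp only [hT2, Finset.mem_filter, Finset.mem_product]
      exact ⟨⟨hp.1.2, hp.1.1⟩, hp.2⟩
    · rintro ⟨a, b⟩ _ ⟨c, d⟩ _ h
      simp only [Prod.mk.injEq] at h
      exact Prod.ext h.2 h.1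
    · rintro ⟨a, b⟩ hp
      simp only [hT2, Finset.mem_filter, Finset.mem_product] at hp
      refine ⟨(b, a), ?_, rfl⟩
      simp only [hT1, Finset.mem_filter, Finset.mem_product]
      exact ⟨⟨hp.1.2, hp.1.1⟩, hp.2⟩
  have hun : T1 ∪ T2 = F ×ˢ F := by
    ext p
    simp only [hT1, hT2, Finset.mem_union, Finset.mem_filter]
    constructor
    · rintro (h | h) <;> exact h.1
    · intro h
      rcases le_total p.2 p.1 with h' | h'
      · exact Or.inl ⟨h, h'⟩
      · exact Or.inr ⟨h, h'⟩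
  have hint : (T1 ∩ T2).card = F.card := by
    symm
    apply Finset.card_bij (fun a _ => (a, a))
    · intro a ha
      simp [hT1, hT2, ha]
    · intro a _ b _ h
      simpa using h
    · rintro ⟨a, b⟩ hp
      simp only [hT1, hT2, Finset.mem_inter, Finset.mem_filter, Finset.mem_product] at hp
      have : a = b := le_antisymm hp.2.2 hp.1.2
      subst this
      exact ⟨a, hp.1.1.1, rfl⟩
  have := Finset.card_union_add_card_inter T1 T2
  rw [hun, hint, Finset.card_product] at this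
  nlinarith [this, h12]

/-- Sum of ranks. -/
lemma sum_rank (F : Finset ℕ) :
    2 * ∑ s ∈ F, (F.filter (fun t => s ≤ t)).card = F.card * (F.card + 1) := by
  classical
  rw [← card_pairs F]
  congr 1
  have : ((F ×ˢ F).filter (fun p => p.2 ≤ p.1)).card
      = ∑ s ∈ F, (F.filter (fun t => s ≤ t)).card := by
    rw [Finset.card_filter, Finset.sum_product_right]
    apply Finset.sum_congr rfl
    intro s _
    rw [Finset.card_filter]
  rw [this]

/-- All pairs of elements up to `n`. -/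
lemma two_mul_R_le (h0 : A 0) (n : ℕ) : 2 * (R A n + 1) ≤ cA A n * (cA A n + 1) := by
  classical
  rw [cA, ← card_pairs (S A n)]
  apply Nat.mul_le_mul_left
  have hsub : insert ((0 : ℕ), (0 : ℕ)) (P A n) ⊆ ((S A n) ×ˢ (S A n)).filter (fun p => p.2 ≤ p.1) := by
    intro p hp
    rw [Finset.mem_insert] at hp
    rw [Finset.mem_filter, Finset.mem_product, mem_S, mem_S]
    rcases hp with rfl | hp
    · exact ⟨⟨⟨Nat.zero_le _, h0⟩, Nat.zero_le _, h0⟩, le_rfl⟩
    · rw [mem_P] at hp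
      exact ⟨⟨⟨by omega, hp.1⟩, by omega, hp.2.1⟩, hp.2.2.1⟩
  have hni : ((0 : ℕ), (0 : ℕ)) ∉ P A n := by
    rw [mem_P]
    rintro ⟨_, _, _, h, _⟩
    exact absurd h (by norm_num)
  calc R A n + 1 = (insert ((0 : ℕ), (0 : ℕ)) (P A n)).card := by
        rw [Finset.card_insert_of_notMem hni]; rfl
    _ ≤ _ := Finset.card_le_card hsub

lemma le_cA (hg : Greedy A) (n : ℕ) : 2 * (n + 1) ≤ cA A n * (cA A n + 1) :=
  le_trans (by have := hg.ge n; omega) (two_mul_R_le hg.zero n)

lemma one_le_cA (hg : Greedy A) (n : ℕ) : 1 ≤ cA A n := by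
  have := le_cA hg n
  by_contra h
  have h0 : cA A n = 0 := by omega
  rw [h0] at this
  omega

lemma S_mono {m n : ℕ} (h : m ≤ n) : S A m ⊆ S A n := by
  intro t ht
  rw [mem_S] at ht ⊢
  exact ⟨ht.1.trans h, ht.2⟩

lemma cA_mono {m n : ℕ} (h : m ≤ n) : cA A m ≤ cA A n := Finset.card_le_card (S_mono h)

lemma P_mono {m n : ℕ} (h : m ≤ n) : P A m ⊆ P A n := by
  intro t ht
  rw [mem_P] at ht ⊢
  exact ⟨ht.1, ht.2.1, ht.2.2.1, ht.2.2.2.1, ht.2.2.2.2.trans h⟩

lemma R_mono {m n : ℕ} (h : m ≤ n) : R A m ≤ R A n := Finset.card_le_card (P_mono h)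

/-- Sums with the larger element in `[n0,n1]`. -/
lemma sum_cA_le (hg : Greedy A) {n0 n1 : ℕ} (h0 : A n0) (h1 : A n1) (h01 : n0 ≤ n1)
    (h2 : n1 < 2 * n0) :
    ∑ s ∈ (Finset.Icc n0 n1).filter A, cA A (n1 - s) ≤ n1 - n0 + 1 := by
  classical
  set F := (Finset.Icc n0 n1).filter A with hF
  have hn0 : 1 ≤ n0 := by omega
  set U := (F ×ˢ (S A n1)).filter (fun p => p.1 + p.2 ≤ n1) with hU
  have hcard : U.card = ∑ s ∈ F, cA A (n1 - s) := by
    rw [hU, Finset.card_filter, Finset.sum_product]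
    apply Finset.sum_congr rfl
    intro s hs
    rw [hF, Finset.mem_filter, Finset.mem_Icc] at hs
    rw [← Finset.card_filter, cA]
    congr 1
    ext t
    rw [Finset.mem_filter, mem_S, mem_S]
    constructor
    · rintro ⟨⟨_, h⟩, h'⟩
      exact ⟨by omega, h⟩
    · rintro ⟨h, h'⟩
      exact ⟨⟨by omega, h'⟩, by omega⟩
  have hUsub : U ⊆ P A n1 \ P A (n0 - 1) := by
    intro p hp
    rw [hU, Finset.mem_filter, Finset.mem_product, hF, Finset.mem_filter, Finset.mem_Icc,
      mem_S] at hp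
    obtain ⟨⟨⟨⟨h3, h4⟩, h5⟩, h6, h7⟩, h8⟩ := hp
    rw [Finset.mem_sdiff, mem_P, mem_P]
    refine ⟨⟨h5, h7, by omega, by omega, h8⟩, ?_⟩
    rintro ⟨_, _, _, _, h9⟩
    omega
  have h3 := Finset.card_le_card hUsub
  rw [Finset.card_sdiff_of_subset (P_mono (by omega)), hcard] at h3
  have h4 : (P A n1).card = n1 := hg.eq n1 h1 (by omega)
  have h5 : (P A (n0 - 1)).card = n0 - 1 := hg.eqp n0 h0 hn0
  rw [h4, h5] at h3
  omega

/-- The cluster lemma. -/
lemma cluster (hg : Greedy A) {n1 : ℕ} (h1 : A n1) :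
    ∀ d n0 : ℕ, n1 - n0 = d → A n0 → n0 ≤ n1 → n1 < 2 * n0 →
      ((Finset.Icc n0 n1).filter A).card * (((Finset.Icc n0 n1).filter A).card + 1)
        ≤ 2 * (n1 - n0 + 1) := by
  classical
  intro d
  induction d using Nat.strong_induction_on with
  | _ d ih =>
    intro n0 hd h0 h01 h2
    set F := (Finset.Icc n0 n1).filter A with hF
    set m := F.card with hm
    have hn0F : n0 ∈ F := by
      rw [hF, Finset.mem_filter, Finset.mem_Icc]
      exact ⟨⟨le_rfl, h01⟩, h0⟩
    have hm1 : 1 ≤ m := Finset.card_pos.mpr ⟨n0, hn0F⟩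
    have hrank : ∀ s ∈ F.erase n0, (F.filter (fun t => s ≤ t)).card ≤ cA A (n1 - s) := by
      intro s hs
      rw [Finset.mem_erase] at hs
      obtain ⟨hne, hs⟩ := hs
      rw [hF, Finset.mem_filter, Finset.mem_Icc] at hs
      obtain ⟨⟨h3, h4⟩, h5⟩ := hs
      have h6 : F.filter (fun t => s ≤ t) = (Finset.Icc s n1).filter A := by
        ext t
        simp only [hF, Finset.mem_filter, Finset.mem_Icc]
        constructor
        · rintro ⟨⟨⟨a, b⟩, c⟩, e⟩
          exact ⟨⟨e, b⟩, c⟩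
        · rintro ⟨⟨a, b⟩, c⟩
          exact ⟨⟨⟨by omega, b⟩, c⟩, a⟩
      rw [h6]
      have h7 := ih (n1 - s) (by omega) s rfl h5 h4 (by omega)
      have h8 := le_cA hg (n1 - s)
      by_contra h9
      push Not at h9
      have h10 : cA A (n1 - s) * (cA A (n1 - s) + 1)
          < ((Finset.Icc s n1).filter A).card * (((Finset.Icc s n1).filter A).card + 1) := by
        nlinarith
      omega
    have hsum := sum_cA_le hg h0 h1 h01 h2
    rw [← hF] at hsum
    have hsplit : ∑ s ∈ F, cA A (n1 - s) = cA A (n1 - n0) + ∑ s ∈ F.erase n0, cA A (n1 - s) :=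
      (Finset.add_sum_erase F _ hn0F).symm
    have hsr := sum_rank F
    have hsplit2 : ∑ s ∈ F, (F.filter (fun t => s ≤ t)).card
        = m + ∑ s ∈ F.erase n0, (F.filter (fun t => s ≤ t)).card := by
      rw [← Finset.add_sum_erase F _ hn0F]
      congr 1
      rw [hm]
      congr 1
      apply Finset.filter_true_of_mem
      intro t ht
      rw [hF, Finset.mem_filter, Finset.mem_Icc] at ht
      exact ht.1.1
    have hle : ∑ s ∈ F.erase n0, (F.filter (fun t => s ≤ t)).card
        ≤ ∑ s ∈ F.erase n0, cA A (n1 - s) := Finset.sum_le_sum hrank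
    rw [hsplit2, ← hm] at hsr
    rw [hsplit] at hsum
    have hc := le_cA hg (n1 - n0)
    have hc1 := one_le_cA hg (n1 - n0)
    set c := cA A (n1 - n0) with hcdef
    set e := n1 - n0 with he
    have hkey : m * (m + 1) + 2 * c ≤ 2 * (e + 1) + 2 * m := by
      omega
    have hmc : m ≤ c := by
      by_contra h
      push Not at h
      nlinarith
    omega

/-- Windows `(x, x+w]` with `w <= x`. -/
lemma window (hg : Greedy A) {x w : ℕ} (hw : w ≤ x) :
    ((Finset.Ioc x (x + w)).filter A).card * (((Finset.Ioc x (x + w)).filter A).card + 1)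
      ≤ 2 * w := by
  classical
  set F := (Finset.Ioc x (x + w)).filter A with hF
  rcases F.eq_empty_or_nonempty with h | h
  · rw [h]; simp
  · set n0 := F.min' h
    set n1 := F.max' h
    have h0 : n0 ∈ F := F.min'_mem h
    have h1 : n1 ∈ F := F.max'_mem h
    have h01 : n0 ≤ n1 := F.min'_le n1 h1
    rw [hF, Finset.mem_filter, Finset.mem_Ioc] at h0 h1
    have hsub : F ⊆ (Finset.Icc n0 n1).filter A := by
      intro t ht
      rw [Finset.mem_filter, Finset.mem_Icc]
      refine ⟨⟨F.min'_le t ht, F.le_max' t ht⟩, ?_⟩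
      rw [hF, Finset.mem_filter] at ht
      exact ht.2
    have h2 := cluster hg h1.2 (n1 - n0) n0 rfl h0.2 h01 (by omega)
    have h3 := Finset.card_le_card hsub
    calc F.card * (F.card + 1) ≤ _ := Nat.mul_le_mul h3 (Nat.succ_le_succ h3)
      _ ≤ 2 * (n1 - n0 + 1) := h2
      _ ≤ 2 * w := by omega

/-- The counting function at elements. -/
lemma cA_quad (hg : Greedy A) {a : ℕ} (ha : A a) (ha1 : 1 ≤ a) :
    cA A a ^ 2 + 2 * cA A a ≤ 4 * (a + 1) := by
  classical
  set b := a / 2 with hb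
  set Q := (Finset.Icc (b + 1) a).filter A with hQ
  set q := Q.card with hq
  set p := cA A b with hp
  have hpq : cA A a = p + q := by
    rw [cA, hp, cA, hq, ← Finset.card_union_of_disjoint]
    · congr 1
      ext t
      simp only [Finset.mem_union, mem_S, hQ, Finset.mem_filter, Finset.mem_Icc]
      constructor
      · rintro ⟨h, h'⟩
        by_cases h2 : t ≤ b
        · exact Or.inl ⟨h2, h'⟩
        · exact Or.inr ⟨⟨by omega, h⟩, h'⟩
      · rintro (⟨h, h'⟩ | ⟨⟨h, h2⟩, h'⟩)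
        · exact ⟨by omega, h'⟩
        · exact ⟨h2, h'⟩
    · rw [Finset.disjoint_left]
      intro t ht ht'
      rw [mem_S] at ht
      rw [hQ, Finset.mem_filter, Finset.mem_Icc] at ht'
      omega
  -- pairs inside `[0,b]`
  set T1 := ((S A b) ×ˢ (S A b)).filter (fun p => p.2 ≤ p.1) with hT1
  set T2 := (Q ×ˢ (S A a)).filter (fun p => p.1 + p.2 ≤ a) with hT2
  have hT1c : 2 * T1.card = p * (p + 1) := card_pairs (S A b)
  have hT2c : T2.card = ∑ s ∈ Q, cA A (a - s) := by
    rw [hT2, Finset.card_filter, Finset.sum_product]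
    apply Finset.sum_congr rfl
    intro s hs
    rw [hQ, Finset.mem_filter, Finset.mem_Icc] at hs
    rw [← Finset.card_filter, cA]
    congr 1
    ext t
    rw [Finset.mem_filter, mem_S, mem_S]
    constructor
    · rintro ⟨⟨_, h⟩, h'⟩
      exact ⟨by omega, h⟩
    · rintro ⟨h, h'⟩
      exact ⟨⟨by omega, h'⟩, by omega⟩
  have hT2ge : q * (q + 1) ≤ 2 * T2.card := by
    rw [hT2c, hq, ← sum_rank Q]
    apply Nat.mul_le_mul_left
    apply Finset.sum_le_sum
    intro s hs
    have hs' := hs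
    rw [hQ, Finset.mem_filter, Finset.mem_Icc] at hs'
    have h6 : Q.filter (fun t => s ≤ t) = (Finset.Icc s a).filter A := by
      ext t
      simp only [hQ, Finset.mem_filter, Finset.mem_Icc]
      constructor
      · rintro ⟨⟨⟨a, b⟩, c⟩, e⟩
        exact ⟨⟨e, b⟩, c⟩
      · rintro ⟨⟨a, b⟩, c⟩
        exact ⟨⟨⟨by omega, b⟩, c⟩, a⟩
    rw [h6]
    have h7 := cluster hg ha (a - s) s rfl hs'.2 hs'.1.2 (by omega)
    have h8 := le_cA hg (a - s)
    by_contra h9
    push Not at h9
    have h10 : cA A (a - s) * (cA A (a - s) + 1)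
        < ((Finset.Icc s a).filter A).card * (((Finset.Icc s a).filter A).card + 1) := by
      nlinarith
    omega
  have hdisj : Disjoint T1 T2 := by
    rw [Finset.disjoint_left]
    intro x hx hx'
    rw [hT1, Finset.mem_filter, Finset.mem_product, mem_S] at hx
    rw [hT2, Finset.mem_filter, Finset.mem_product, hQ, Finset.mem_filter,
      Finset.mem_Icc] at hx'
    omega
  have hsub : T1 ∪ T2 ⊆ insert ((0 : ℕ), (0 : ℕ)) (P A a) := by
    intro x hx
    rw [Finset.mem_union] at hx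
    rw [Finset.mem_insert, mem_P]
    rcases hx with hx | hx
    · rw [hT1, Finset.mem_filter, Finset.mem_product, mem_S, mem_S] at hx
      obtain ⟨⟨⟨h1, h2⟩, h3, h4⟩, h5⟩ := hx
      by_cases h : x.1 = 0
      · left
        have : x.2 = 0 := by omega
        exact Prod.ext h this
      · right
        exact ⟨h2, h4, h5, by omega, by omega⟩
    · rw [hT2, Finset.mem_filter, Finset.mem_product, hQ, Finset.mem_filter,
        Finset.mem_Icc, mem_S] at hx
      obtain ⟨⟨⟨⟨h1, h2⟩, h3⟩, h4, h5⟩, h6⟩ := hx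
      right
      exact ⟨h3, h5, by omega, by omega, h6⟩
  have hcard := Finset.card_le_card hsub
  rw [Finset.card_union_of_disjoint hdisj] at hcard
  have hins : (insert ((0 : ℕ), (0 : ℕ)) (P A a)).card ≤ a + 1 := by
    refine (Finset.card_insert_le _ _).trans ?_
    have : (P A a).card = a := hg.eq a ha ha1
    omega
  have hmain : p * (p + 1) + q * (q + 1) ≤ 2 * (a + 1) := by
    omega
  rw [hpq]
  zify at hmain ⊢
  nlinarith [sq_nonneg ((p : ℤ) - q)]

/-- The counting function is at most `2 sqrt a` at elements. -/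
lemma cA_sq_le_of_mem (hg : Greedy A) {a : ℕ} (ha : A a) (ha1 : 1 ≤ a) :
    cA A a ^ 2 ≤ 4 * a := by
  have h1 := cA_quad hg ha ha1
  have h2 : 2 ≤ cA A a := by
    rw [cA]
    have : ({0, 1} : Finset ℕ) ⊆ S A a := by
      intro t ht
      rw [Finset.mem_insert, Finset.mem_singleton] at ht
      rw [mem_S]
      rcases ht with rfl | rfl
      · exact ⟨by omega, hg.zero⟩
      · exact ⟨ha1, hg.one⟩
    have h3 := Finset.card_le_card this
    simpa using h3
  omega

/-- The counting function is at most `2 sqrt x` for all `x >= 1`. -/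
lemma cA_sq_le (hg : Greedy A) {x : ℕ} (hx : 1 ≤ x) : cA A x ^ 2 ≤ 4 * x := by
  classical
  have hne : (S A x).Nonempty := ⟨1, mem_S.mpr ⟨hx, hg.one⟩⟩
  set a := (S A x).max' hne with ha
  have hmem : a ∈ S A x := (S A x).max'_mem hne
  rw [mem_S] at hmem
  have ha1 : 1 ≤ a := (S A x).le_max' 1 (mem_S.mpr ⟨hx, hg.one⟩)
  have heq : S A x = S A a := by
    ext t
    rw [mem_S, mem_S]
    constructor
    · rintro ⟨h, h'⟩
      exact ⟨(S A x).le_max' t (mem_S.mpr ⟨h, h'⟩), h'⟩
    · rintro ⟨h, h'⟩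
      exact ⟨h.trans hmem.1, h'⟩
  have := cA_sq_le_of_mem hg hmem.2 ha1
  rw [cA, heq]
  calc (S A a).card ^ 2 ≤ 4 * a := this
    _ ≤ 4 * x := by omega

end Pool.Agent.Rosen
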