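import Pool.Agent.Rosen.Bound

set_option autoImplicit false

/-! Sharper estimate for the elements close to `a`. -/

namespace Pool.Agent.Rosen

open Finset Real

variable {A : ℕ → Prop} [DecidablePred A]

/-- Sum of a function of the rank. -/
lemma sum_rank_gen (φ : ℕ → ℝ) (F : Finset ℕ) :
    ∑ s ∈ F, φ ((F.filter (fun t => s ≤ t)).card) = ∑ r ∈ Finset.range F.card, φ (r + 1) := by
  classical
  induction F using Finset.induction_on_min with
  | empty => simp
  | insert a s ha ih =>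
    have hni : a ∉ s := fun h => absurd (ha a h) (lt_irrefl a)
    rw [Finset.sum_insert hni, Finset.card_insert_of_notMem hni, Finset.sum_range_succ, ← ih,
      add_comm]
    congr 1
    · apply Finset.sum_congr rfl
      intro x hx
      congr 2
      ext t
      simp only [Finset.mem_filter, Finset.mem_insert]
      constructor
      · rintro ⟨h1 | h1, h2⟩
        · subst h1
          exact absurd h2 (not_le.mpr (ha x hx))
        · exact ⟨h1, h2⟩
      · rintro ⟨h1, h2⟩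
        exact ⟨Or.inr h1, h2⟩
    · congr 1
      have : (insert a s).filter (fun t => a ≤ t) = insert a s := by
        apply Finset.filter_true_of_mem
        intro t ht
        rw [Finset.mem_insert] at ht
        rcases ht with rfl | ht
        · exact le_rfl
        · exact (ha t ht).le
      rw [this, Finset.card_insert_of_notMem hni]

lemma F_anti {Y y w : ℝ} (hY : 0 ≤ Y) (hYy : Y ≤ y) (hyw : y ≤ w) :
    2 * √(y + w) - √(2 * y) ≤ 2 * √(Y + w) - √(2 * Y) := by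
  have hy : 0 ≤ y := hY.trans hYy
  have hw : 0 ≤ w := hy.trans hyw
  set p := √(y + w) with hp
  set q := √(Y + w) with hq
  set s := √(2 * y) with hs
  set t := √(2 * Y) with ht
  have hp0 : 0 ≤ p := Real.sqrt_nonneg _
  have hq0 : 0 ≤ q := Real.sqrt_nonneg _
  have hs0 : 0 ≤ s := Real.sqrt_nonneg _
  have ht0 : 0 ≤ t := Real.sqrt_nonneg _
  have hp2 : p ^ 2 = y + w := Real.sq_sqrt (by linarith)
  have hq2 : q ^ 2 = Y + w := Real.sq_sqrt (by linarith)
  have hs2 : s ^ 2 = 2 * y := Real.sq_sqrt (by linarith)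
  have ht2 : t ^ 2 = 2 * Y := Real.sq_sqrt (by linarith)
  have hsp : s ≤ p := Real.sqrt_le_sqrt (by linarith)
  have htq : t ≤ q := Real.sqrt_le_sqrt (by linarith)
  have hts : t ≤ s := Real.sqrt_le_sqrt (by linarith)
  rcases eq_or_lt_of_le (add_nonneg hp0 hq0) with h | h
  · have h1 : p = 0 := by linarith
    have h2 : q = 0 := by linarith
    have h3 : s = 0 := by linarith
    have h4 : t = 0 := by linarith
    rw [h1, h2, h3, h4]
  · have h1 : 2 * (p - q) * (p + q) = (s - t) * (s + t) := by nlinarith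
    have h2 : (s - t) * (s + t) ≤ (s - t) * (p + q) :=
      mul_le_mul_of_nonneg_left (by linarith) (by linarith)
    have h3 : 2 * (p - q) * (p + q) ≤ (s - t) * (p + q) := by linarith
    have h4 : 2 * (p - q) ≤ s - t := le_of_mul_le_mul_right h3 h
    linarith

lemma two_sqrt_le {Y w s : ℝ} (hs : 0 < s) (hsw : s ^ 2 = 2 * w) (hY : 0 ≤ Y) :
    2 * √(Y + w) ≤ 5 / 4 * Y / s + 57 / 40 * s := by
  set t := √(Y + w) with ht
  have hw : 0 ≤ w := by nlinarith
  have ht2 : t ^ 2 = Y + w := Real.sq_sqrt (by linarith)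
  have h1 : 5 / 4 * Y / s + 57 / 40 * s - 2 * t = 5 / 4 * (t - 4 / 5 * s) ^ 2 / s := by
    field_simp
    nlinarith
  have h2 : 0 ≤ 5 / 4 * (t - 4 / 5 * s) ^ 2 / s := by positivity
  linarith

/-- terms in `(b,a]` when `a < 2(b+1)` -/
lemma window_top (hg : Greedy A) {a b : ℕ} (ha : A a) (hb : a < 2 * (b + 1)) :
    ((Finset.Ioc b a).filter A).card * (((Finset.Ioc b a).filter A).card + 1) ≤ 2 * (a - b) := by
  classical
  set F := (Finset.Ioc b a).filter A with hF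
  rcases F.eq_empty_or_nonempty with h | h
  · rw [h]; simp
  · set n0 := F.min' h
    have h0 : n0 ∈ F := F.min'_mem h
    rw [hF, Finset.mem_filter, Finset.mem_Ioc] at h0
    have hsub : F ⊆ (Finset.Icc n0 a).filter A := by
      intro t ht
      rw [Finset.mem_filter, Finset.mem_Icc]
      have ht' := ht
      rw [hF, Finset.mem_filter, Finset.mem_Ioc] at ht'
      exact ⟨⟨F.min'_le t ht, ht'.1.2⟩, ht'.2⟩
    have h2 := cluster hg ha (a - n0) n0 rfl h0.2 h0.1.2 (by omega)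
    have h3 := Finset.card_le_card hsub
    calc F.card * (F.card + 1) ≤ _ := Nat.mul_le_mul h3 (Nat.succ_le_succ h3)
      _ ≤ 2 * (a - n0 + 1) := h2
      _ ≤ 2 * (a - b) := by omega

lemma sum_poly (m : ℕ) (u c d : ℝ) :
    ∑ r ∈ Finset.range m, (u * (((r + 1 : ℕ) : ℝ) ^ 2 + ((r + 1 : ℕ) : ℝ) - 2) + c
      - (((r + 1 : ℕ) : ℝ) - 1) + d)
      = u * ((m : ℝ) * (m + 1) * (m + 2) / 3 - 2 * m) + (c + d) * m - (m : ℝ) * (m - 1) / 2 := by
  induction m with
  | zero => simp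
  | succ m ih =>
    rw [Finset.sum_range_succ, ih]
    push_cast
    ring

/-- The cost of the elements close to `a`, sharper form. -/
lemma cost' (hg : Greedy A) {a w b : ℕ} (ha : A a) (hw : 1 ≤ w) (hb : a < 2 * (b + 1))
    (hbw : a ≤ b + w) :
    ∑ v ∈ (Finset.Ioc b a).filter A,
      (2 * √(((a - v : ℕ) : ℝ) + (w : ℝ)) - √(2 * ((a - v : ℕ) : ℝ)) + 1 / 2 - √(2 * (w : ℝ)))
      ≤ 4 / 15 * w + 13 / 8 * √(2 * (w : ℝ)) := by
  classical
  set F := (Finset.Ioc b a).filter A with hF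
  set m := F.card with hm
  set s := √(2 * (w : ℝ)) with hs
  have hw0 : (0 : ℝ) < w := by exact_mod_cast hw
  have hs0 : 0 < s := Real.sqrt_pos.mpr (by positivity)
  have hs2 : s ^ 2 = 2 * (w : ℝ) := Real.sq_sqrt (by positivity)
  have hms : (m : ℝ) ≤ s := by
    apply le_sqrt_of_mul
    have h := window_top hg ha hb
    rw [← hF, ← hm] at h
    exact h.trans (by omega)
  have hm0 : (0 : ℝ) ≤ m := Nat.cast_nonneg m
  set φ : ℕ → ℝ := fun r => 5 / (8 * s) * ((r : ℝ) ^ 2 + (r : ℝ) - 2) + 17 / 40 * s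
      - ((r : ℝ) - 1) + 1 / 2 with hφ
  have hterm : ∀ v ∈ F,
      2 * √(((a - v : ℕ) : ℝ) + (w : ℝ)) - √(2 * ((a - v : ℕ) : ℝ)) + 1 / 2 - s
      ≤ φ ((F.filter (fun t => v ≤ t)).card) := by
    intro v hv
    have hv' := hv
    rw [hF, Finset.mem_filter, Finset.mem_Ioc] at hv'
    have hyw : ((a - v : ℕ) : ℝ) ≤ (w : ℝ) := by
      have : a - v ≤ w := by omega
      exact_mod_cast this
    have h6 : F.filter (fun t => v ≤ t) = (Finset.Icc v a).filter A := by
      ext t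
      simp only [hF, Finset.mem_filter, Finset.mem_Icc, Finset.mem_Ioc]
      constructor
      · rintro ⟨⟨⟨a, b⟩, c⟩, e⟩
        exact ⟨⟨e, b⟩, c⟩
      · rintro ⟨⟨a, b⟩, c⟩
        exact ⟨⟨⟨by omega, b⟩, c⟩, a⟩
    have h7 := cluster hg ha (a - v) v rfl hv'.2 hv'.1.2 (by omega)
    rw [← h6] at h7
    set r := (F.filter (fun t => v ≤ t)).card with hr
    have hr1' : 1 ≤ r := by
      rw [hr]
      exact Finset.card_pos.mpr ⟨v, Finset.mem_filter.mpr ⟨hv, le_rfl⟩⟩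
    have hr1 : (1 : ℝ) ≤ r := by exact_mod_cast hr1'
    have h8 : (r : ℝ) * ((r : ℝ) + 1) ≤ 2 * (((a - v : ℕ) : ℝ) + 1) := by exact_mod_cast h7
    set Y : ℝ := ((r : ℝ) ^ 2 + (r : ℝ) - 2) / 2 with hY
    have hY0 : 0 ≤ Y := by rw [hY]; nlinarith
    have hYy : Y ≤ ((a - v : ℕ) : ℝ) := by rw [hY]; nlinarith
    have h9 := F_anti hY0 hYy hyw
    have h10 := two_sqrt_le (w := (w : ℝ)) hs0 hs2 hY0
    have h11 : (r : ℝ) - 1 ≤ √(2 * Y) := by
      apply Real.le_sqrt_of_sq_le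
      rw [hY]
      nlinarith
    have h12 : 5 / 4 * Y / s = 5 / (8 * s) * ((r : ℝ) ^ 2 + (r : ℝ) - 2) := by
      rw [hY]
      field_simp
      ring
    simp only [hφ]
    rw [← h12]
    linarith
  refine (Finset.sum_le_sum hterm).trans ?_
  rw [sum_rank_gen φ F, ← hm]
  simp only [hφ]
  rw [sum_poly]
  -- polynomial inequality
  have hkey : 5 / (8 * s) * ((m : ℝ) * (m + 1) * (m + 2) / 3 - 2 * m)
      = 5 / 24 * (m : ℝ) ^ 3 / s + 5 / 8 * (m : ℝ) ^ 2 / s - 5 / 6 * (m : ℝ) / s := by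
    field_simp
    ring
  rw [hkey]
  have h1 : 5 / 8 * (m : ℝ) ^ 2 / s ≤ 5 / 8 * (m : ℝ) := by
    rw [div_le_iff₀ hs0]
    nlinarith
  have h2 : 0 ≤ 5 / 6 * (m : ℝ) / s := by positivity
  have h3 : 5 / 24 * (m : ℝ) ^ 3 / s + 17 / 40 * s * (m : ℝ) - (m : ℝ) ^ 2 / 2 ≤ 2 / 15 * s ^ 2 := by
    have h4 : 2 / 15 * s ^ 2 - (5 / 24 * (m : ℝ) ^ 3 / s + 17 / 40 * s * (m : ℝ) - (m : ℝ) ^ 2 / 2)
        = (s - m) * (2 / 15 * s ^ 2 - 7 / 24 * (m : ℝ) * s + 5 / 24 * (m : ℝ) ^ 2) / s := by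
      field_simp
      ring
    have h5 : 0 ≤ 2 / 15 * s ^ 2 - 7 / 24 * (m : ℝ) * s + 5 / 24 * (m : ℝ) ^ 2 := by
      nlinarith [sq_nonneg (7 / 24 * s - 10 / 24 * (m : ℝ)), sq_nonneg s, sq_nonneg (m : ℝ)]
    have h6 : 0 ≤ (s - m) * (2 / 15 * s ^ 2 - 7 / 24 * (m : ℝ) * s + 5 / 24 * (m : ℝ) ^ 2) / s :=
      div_nonneg (mul_nonneg (by linarith) h5) hs0.le
    linarith
  rw [hs2] at h3
  nlinarith

end Pool.Agent.Rosen
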