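import Pool.Agent.Rosen.Cost

set_option autoImplicit false

/-! `R x <= (13/10) x + 3 sqrt x`. -/

namespace Pool.Agent.Rosen

open Finset Real

variable {A : ℕ → Prop} [DecidablePred A]

lemma sum_f_le (hg : Greedy A) {a w : ℕ} (ha : A a) (hw : 1 ≤ w) (haw : 2 * w ≤ a) :
    ((∑ v ∈ S A a, f A a w v : ℕ) : ℝ) ≤
      √(2 * (w : ℝ)) * (cA A a : ℝ) - ((w : ℝ) - 5 / 4 * √(2 * (w : ℝ)))
        + (4 / 15 * w + 13 / 8 * √(2 * (w : ℝ))) := by
  classical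
  have hpt : ∀ v ∈ S A a, (f A a w v : ℝ) ≤ √(2 * (w : ℝ))
      - (if v < w then (√(2 * (w : ℝ)) - √(2 * (v : ℝ))) else 0)
      + (if a - w < v then (2 * √(((a - v : ℕ) : ℝ) + (w : ℝ)) - √(2 * ((a - v : ℕ) : ℝ))
          + 1 / 2 - √(2 * (w : ℝ))) else 0) := by
    intro v hv
    rw [mem_S] at hv
    by_cases h1 : v < w
    · have h2 : ¬ (a - w < v) := by omega
      rw [if_pos h1, if_neg h2]
      have := f_small (A := A) hg (a := a) (w := w) (v := v) (by omega)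
      linarith
    · rw [if_neg h1]
      by_cases h2 : a - w < v
      · rw [if_pos h2]
        have := f_large (A := A) hg (a := a) (w := w) (v := v) hv.1 hw
        linarith
      · rw [if_neg h2]
        have := f_mid (A := A) hg (a := a) (w := w) (v := v) (by omega)
        linarith
  have hsum := Finset.sum_le_sum hpt
  rw [Finset.sum_add_distrib, Finset.sum_sub_distrib, Finset.sum_const, nsmul_eq_mul,
    ← Finset.sum_filter, ← Finset.sum_filter] at hsum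
  have h1 : (S A a).filter (fun v => v < w) = (Finset.range w).filter A := by
    ext t
    rw [Finset.mem_filter, mem_S, Finset.mem_filter, Finset.mem_range]
    constructor
    · rintro ⟨⟨_, h⟩, h'⟩; exact ⟨h', h⟩
    · rintro ⟨h, h'⟩; exact ⟨⟨by omega, h'⟩, h⟩
  have h2 : (S A a).filter (fun v => a - w < v) = (Finset.Ioc (a - w) a).filter A := by
    ext t
    rw [Finset.mem_filter, mem_S, Finset.mem_filter, Finset.mem_Ioc]
    constructor
    · rintro ⟨⟨h, h'⟩, h''⟩; exact ⟨⟨h'', h⟩, h'⟩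
    · rintro ⟨⟨h, h'⟩, h''⟩; exact ⟨⟨h', h''⟩, h⟩
  rw [h1, h2] at hsum
  have h3 := savings hg w
  have h4 := cost' hg ha hw (b := a - w) (by omega) (by omega)
  have hcard : ((S A a).card : ℝ) = (cA A a : ℝ) := rfl
  rw [hcard] at hsum
  push_cast
  nlinarith

lemma sum_f_le_big (hg : Greedy A) {a w : ℕ} (ha : A a) (hw : 1 ≤ w) (haw : a ≤ 2 * w) :
    ((∑ v ∈ S A a, f A a w v : ℕ) : ℝ) ≤
      √(2 * (w : ℝ)) * (cA A a : ℝ)
        - (√(2 * ((a / 2 : ℕ) : ℝ)) * √(2 * (w : ℝ)) - ((a / 2 : ℕ) : ℝ)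
            - 3 / 4 * √(2 * ((a / 2 : ℕ) : ℝ)) - 1 / 2 * √(2 * (w : ℝ)))
        + (4 / 15 * w + 13 / 8 * √(2 * (w : ℝ))) := by
  classical
  set b := a / 2 with hb
  have hpt : ∀ v ∈ S A a, (f A a w v : ℝ) ≤ √(2 * (w : ℝ))
      - (if v ≤ b then (√(2 * (w : ℝ)) - √(2 * (v : ℝ))) else 0)
      + (if b < v then (2 * √(((a - v : ℕ) : ℝ) + (w : ℝ)) - √(2 * ((a - v : ℕ) : ℝ))
          + 1 / 2 - √(2 * (w : ℝ))) else 0) := by
    intro v hv
    rw [mem_S] at hv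
    by_cases h1 : v ≤ b
    · have h2 : ¬ (b < v) := by omega
      rw [if_pos h1, if_neg h2]
      have := f_small (A := A) hg (a := a) (w := w) (v := v) (by omega)
      linarith
    · rw [if_neg h1, if_pos (by omega)]
      have := f_large (A := A) hg (a := a) (w := w) (v := v) hv.1 hw
      linarith
  have hsum := Finset.sum_le_sum hpt
  rw [Finset.sum_add_distrib, Finset.sum_sub_distrib, Finset.sum_const, nsmul_eq_mul,
    ← Finset.sum_filter, ← Finset.sum_filter] at hsum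
  have h1 : (S A a).filter (fun v => v ≤ b) = S A b := by
    ext t
    rw [Finset.mem_filter, mem_S, mem_S]
    constructor
    · rintro ⟨⟨_, h⟩, h'⟩; exact ⟨h', h⟩
    · rintro ⟨h, h'⟩; exact ⟨⟨by omega, h'⟩, h⟩
  have h2 : (S A a).filter (fun v => b < v) = (Finset.Ioc b a).filter A := by
    ext t
    rw [Finset.mem_filter, mem_S, Finset.mem_filter, Finset.mem_Ioc]
    constructor
    · rintro ⟨⟨h, h'⟩, h''⟩; exact ⟨⟨h'', h⟩, h'⟩
    · rintro ⟨⟨h, h'⟩, h''⟩; exact ⟨⟨h', h''⟩, h⟩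
  rw [h1, h2] at hsum
  have h4 := cost' hg ha hw (b := b) (by omega) (by omega)
  have hcard : ((S A a).card : ℝ) = (cA A a : ℝ) := rfl
  rw [hcard] at hsum
  -- savings
  have h3 := savings hg b
  have h5 : ∑ v ∈ (Finset.range b).filter A, (√(2 * (b : ℝ)) - √(2 * (v : ℝ)))
      ≤ ∑ v ∈ S A b, (√(2 * (b : ℝ)) - √(2 * (v : ℝ))) := by
    apply Finset.sum_le_sum_of_subset_of_nonneg
    · intro t ht
      rw [Finset.mem_filter, Finset.mem_range] at ht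
      rw [mem_S]
      exact ⟨ht.1.le, ht.2⟩
    · intro t ht _
      rw [mem_S] at ht
      have : √(2 * (t : ℝ)) ≤ √(2 * (b : ℝ)) := by
        apply Real.sqrt_le_sqrt
        have : (t : ℝ) ≤ b := by exact_mod_cast ht.1
        linarith
      linarith
  have h6 : ∑ v ∈ S A b, (√(2 * (w : ℝ)) - √(2 * (v : ℝ)))
      = ∑ v ∈ S A b, (√(2 * (b : ℝ)) - √(2 * (v : ℝ)))
        + (cA A b : ℝ) * (√(2 * (w : ℝ)) - √(2 * (b : ℝ))) := by
    rw [cA, ← nsmul_eq_mul, ← Finset.sum_const, ← Finset.sum_add_distrib]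
    apply Finset.sum_congr rfl
    intro v _
    ring
  rw [h6] at hsum
  have h7 := cA_ge hg b
  have hbw : √(2 * (b : ℝ)) ≤ √(2 * (w : ℝ)) := by
    apply Real.sqrt_le_sqrt
    have : (b : ℝ) ≤ w := by
      have : b ≤ w := by omega
      exact_mod_cast this
    linarith
  have h8 : (√(2 * (b : ℝ)) - 1 / 2) * (√(2 * (w : ℝ)) - √(2 * (b : ℝ)))
      ≤ (cA A b : ℝ) * (√(2 * (w : ℝ)) - √(2 * (b : ℝ))) :=
    mul_le_mul_of_nonneg_right h7 (by linarith)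
  have hb2 : √(2 * (b : ℝ)) ^ 2 = 2 * (b : ℝ) := Real.sq_sqrt (by positivity)
  have hexp : (√(2 * (b : ℝ)) - 1 / 2) * (√(2 * (w : ℝ)) - √(2 * (b : ℝ)))
      = √(2 * (b : ℝ)) * √(2 * (w : ℝ)) - √(2 * (b : ℝ)) ^ 2 - 1 / 2 * √(2 * (w : ℝ))
        + 1 / 2 * √(2 * (b : ℝ)) := by ring
  rw [hexp, hb2] at h8
  push_cast
  nlinarith

theorem R_le (hg : Greedy A) {x : ℕ} (hx : 1 ≤ x) :
    (R A x : ℝ) ≤ 13 / 10 * (x : ℝ) + 3 * √(x : ℝ) := by
  classical
  have hne : (S A x).Nonempty := ⟨1, mem_S.mpr ⟨hx, hg.one⟩⟩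
  set a := (S A x).max' hne with hadef
  have hmem : a ∈ S A x := (S A x).max'_mem hne
  rw [mem_S] at hmem
  have ha1 : 1 ≤ a := (S A x).le_max' 1 (mem_S.mpr ⟨hx, hg.one⟩)
  have hgap : ∀ t, a < t → t ≤ x → ¬ A t := by
    intro t h1 h2 h3
    have := (S A x).le_max' t (mem_S.mpr ⟨h2, h3⟩)
    omega
  obtain ⟨w, hw⟩ : ∃ w, x = a + w := ⟨x - a, by omega⟩
  have hxr : (x : ℝ) = (a : ℝ) + (w : ℝ) := by rw [hw]; push_cast; ring
  have hα0 : 0 ≤ √(a : ℝ) := Real.sqrt_nonneg _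
  have hα2 : √(a : ℝ) ^ 2 = a := Real.sq_sqrt (Nat.cast_nonneg a)
  have ha1r : (1 : ℝ) ≤ (a : ℝ) := by exact_mod_cast ha1
  have hα1 : 1 ≤ √(a : ℝ) := by
    rw [← Real.sqrt_one]; exact Real.sqrt_le_sqrt ha1r
  have hαx : √(a : ℝ) ≤ √(x : ℝ) := by
    apply Real.sqrt_le_sqrt
    exact_mod_cast hmem.1
  have hc := cA_le hg ha1
  have hc0 : (0 : ℝ) ≤ (cA A a : ℝ) := Nat.cast_nonneg _
  have hw0 : (0 : ℝ) ≤ (w : ℝ) := Nat.cast_nonneg _
  rcases Nat.eq_zero_or_pos w with h0 | h1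
  · have hxa : x = a := by omega
    have : R A x = a := by rw [hxa]; exact hg.eq a hmem.2 ha1
    rw [this, hxa]
    nlinarith
  have h3 := new_sums hg hmem.2 ha1 (w := w) (fun t ht ht' => hgap t ht (by omega))
  rw [← hw] at h3
  have h5 : 2 * (R A x : ℝ) ≤ 2 * (a : ℝ) + ((∑ v ∈ S A a, f A a w v : ℕ) : ℝ)
      + (cA A a : ℝ) := by exact_mod_cast h3
  set s := √(2 * (w : ℝ)) with hs
  have hs0 : 0 ≤ s := Real.sqrt_nonneg _
  have hs2 : s ^ 2 = 2 * w := Real.sq_sqrt (by positivity)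
  have h6 : s * (cA A a : ℝ) ≤ s * (2 * √(a : ℝ)) := mul_le_mul_of_nonneg_left hc hs0
  by_cases h2 : 2 * w ≤ a
  · have h4 := sum_f_le hg hmem.2 h1 h2
    rw [← hs] at h4
    have hsα : s ≤ √(a : ℝ) := by
      apply Real.sqrt_le_sqrt
      exact_mod_cast h2
    have h7 : 2 * (s * √(a : ℝ)) ≤ 3 / 5 * (a : ℝ) + 10 / 3 * (w : ℝ) := by
      nlinarith [sq_nonneg (5 * s - 3 * √(a : ℝ))]
    rw [hxr] at hαx ⊢
    linarith
  · have h4 := sum_f_le_big hg hmem.2 h1 (by omega)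
    rw [← hs] at h4
    set b := a / 2 with hb
    set β := √(2 * (b : ℝ)) with hβ
    have hβ0 : 0 ≤ β := Real.sqrt_nonneg _
    have hβ2 : β ^ 2 = 2 * (b : ℝ) := Real.sq_sqrt (by positivity)
    have hb1 : 2 * (b : ℝ) ≤ (a : ℝ) := by
      have : 2 * b ≤ a := by omega
      exact_mod_cast this
    have hb2 : (a : ℝ) ≤ 2 * (b : ℝ) + 1 := by
      have : a ≤ 2 * b + 1 := by omega
      exact_mod_cast this
    have hβα : β ≤ √(a : ℝ) := Real.sqrt_le_sqrt hb1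
    have hβα' : √(a : ℝ) - 1 ≤ β := by
      apply Real.le_sqrt_of_sq_le
      nlinarith
    have h8 : (√(a : ℝ) - 1) * s ≤ β * s := mul_le_mul_of_nonneg_right hβα' hs0
    have haw : (a : ℝ) ≤ 2 * (w : ℝ) := by
      have : a ≤ 2 * w := by omega
      exact_mod_cast this
    have h9 : s * √(a : ℝ) ≤ (w : ℝ) + (a : ℝ) / 2 := by
      nlinarith [sq_nonneg (s - √(a : ℝ))]
    have h10 : 11 / 4 * √(a : ℝ) + 25 / 8 * s ≤ 6 * √(x : ℝ) := by
      have hx2 : √(x : ℝ) ^ 2 = (a : ℝ) + (w : ℝ) := by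
        rw [Real.sq_sqrt (Nat.cast_nonneg x), hxr]
      have hx0 : 0 ≤ √(x : ℝ) := Real.sqrt_nonneg _
      apply le_of_sq_le_sq _ (by positivity)
      nlinarith [sq_nonneg (25 / 4 * √(a : ℝ) - 11 / 4 * s)]
    rw [hxr] at h10 ⊢
    nlinarith

end Pool.Agent.Rosen
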