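import Pool.Agent.Rosen.Comb

set_option autoImplicit false

/-! Real-number estimates: `R x <= (4/3) x + (17/8) sqrt x`. -/

namespace Pool.Agent.Rosen

open Finset Real

variable {A : ℕ → Prop} [DecidablePred A]

lemma cA_ge (hg : Greedy A) (n : ℕ) : √(2 * (n : ℝ)) - 1 / 2 ≤ (cA A n : ℝ) := by
  have h := le_cA hg n
  have h' : (2 : ℝ) * (n + 1) ≤ (cA A n : ℝ) * ((cA A n : ℝ) + 1) := by exact_mod_cast h
  have : √(2 * (n : ℝ)) ≤ (cA A n : ℝ) + 1 / 2 := by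
    rw [Real.sqrt_le_iff]
    constructor
    · positivity
    · nlinarith
  linarith

lemma cA_le (hg : Greedy A) {x : ℕ} (hx : 1 ≤ x) : (cA A x : ℝ) ≤ 2 * √(x : ℝ) := by
  have h := cA_sq_le hg hx
  have h' : (cA A x : ℝ) ^ 2 ≤ 4 * (x : ℝ) := by exact_mod_cast h
  have h2 : (2 * √(x : ℝ)) ^ 2 = 4 * (x : ℝ) := by
    rw [mul_pow, Real.sq_sqrt (Nat.cast_nonneg x)]; norm_num
  exact abs_le_of_sq_le_sq' (by rw [h2]; exact h') (by positivity) |>.2

lemma le_sqrt_of_mul {m w : ℕ} (h : m * (m + 1) ≤ 2 * w) : (m : ℝ) ≤ √(2 * (w : ℝ)) := by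
  apply Real.le_sqrt_of_sq_le
  have h' : (m : ℝ) * ((m : ℝ) + 1) ≤ 2 * (w : ℝ) := by exact_mod_cast h
  have : (0 : ℝ) ≤ m := Nat.cast_nonneg m
  nlinarith

/-- The savings from small elements. -/
lemma savings (hg : Greedy A) (w : ℕ) :
    (w : ℝ) - 5 / 4 * √(2 * (w : ℝ)) ≤
      ∑ v ∈ (Finset.range w).filter A, (√(2 * (w : ℝ)) - √(2 * (v : ℝ))) := by
  induction w with
  | zero => simp
  | succ w ih =>
    have h1 : (Finset.range (w + 1)).filter A = S A w := rfl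
    have h2 : ∑ v ∈ S A w, (√(2 * ((w + 1 : ℕ) : ℝ)) - √(2 * (v : ℝ)))
        = ∑ v ∈ S A w, (√(2 * (w : ℝ)) - √(2 * (v : ℝ)))
          + (cA A w : ℝ) * (√(2 * ((w + 1 : ℕ) : ℝ)) - √(2 * (w : ℝ))) := by
      rw [cA, ← nsmul_eq_mul, ← Finset.sum_const, ← Finset.sum_add_distrib]
      apply Finset.sum_congr rfl
      intro v _
      ring
    have h3 : ∑ v ∈ (Finset.range w).filter A, (√(2 * (w : ℝ)) - √(2 * (v : ℝ)))
        ≤ ∑ v ∈ S A w, (√(2 * (w : ℝ)) - √(2 * (v : ℝ))) := by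
      apply Finset.sum_le_sum_of_subset_of_nonneg
      · intro t ht
        rw [Finset.mem_filter, Finset.mem_range] at ht
        rw [mem_S]
        exact ⟨ht.1.le, ht.2⟩
      · intro t ht _
        rw [mem_S] at ht
        have : √(2 * (t : ℝ)) ≤ √(2 * (w : ℝ)) := by
          apply Real.sqrt_le_sqrt
          have : (t : ℝ) ≤ w := by exact_mod_cast ht.1
          linarith
        linarith
    rw [h1, h2]
    have h4 := cA_ge hg w
    set g0 := √(2 * (w : ℝ)) with hg0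
    set g1 := √(2 * ((w + 1 : ℕ) : ℝ)) with hg1
    have hg0n : 0 ≤ g0 := Real.sqrt_nonneg _
    have hg1n : 0 ≤ g1 := Real.sqrt_nonneg _
    have hg0s : g0 ^ 2 = 2 * (w : ℝ) := Real.sq_sqrt (by positivity)
    have hg1s : g1 ^ 2 = 2 * (w : ℝ) + 2 := by
      rw [hg1, Real.sq_sqrt (by positivity)]; push_cast; ring
    have h01 : g0 ≤ g1 := by nlinarith
    have hd : g1 - g0 ≤ 3 / 2 := by
      by_contra h
      push Not at h
      nlinarith
    have h5 : (g0 - 1 / 2) * (g1 - g0) ≤ (cA A w : ℝ) * (g1 - g0) :=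
      mul_le_mul_of_nonneg_right h4 (by linarith)
    push_cast
    have h6 : 1 ≤ (g1 - g0) * (g0 + 3 / 4) := by
      -- `(g1 - g0)(g1 + g0) = 2` and `2 (g0 + 3/4) >= g1 + g0`
      have h7 : (g1 - g0) * (g1 + g0) = 2 := by nlinarith
      have h8 : g1 + g0 ≤ 2 * (g0 + 3 / 4) := by linarith
      have h9 : (g1 - g0) * (g1 + g0) ≤ (g1 - g0) * (2 * (g0 + 3 / 4)) :=
        mul_le_mul_of_nonneg_left h8 (by linarith)
      linarith
    nlinarith

/-- The chord bound. -/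
lemma chord {y w : ℝ} (hy : 0 ≤ y) (hyw : y ≤ w) :
    2 * √(y + w) ≤ 2 * √w + (2 - √2) * √(2 * y) := by
  have hw : 0 ≤ w := hy.trans hyw
  set s := √(2 * y) with hs
  set q := √w with hq
  set r := √2 with hr
  have hs0 : 0 ≤ s := Real.sqrt_nonneg _
  have hq0 : 0 ≤ q := Real.sqrt_nonneg _
  have hr0 : 0 ≤ r := Real.sqrt_nonneg _
  have hs2 : s ^ 2 = 2 * y := Real.sq_sqrt (by positivity)
  have hq2 : q ^ 2 = w := Real.sq_sqrt hw
  have hr2 : r ^ 2 = 2 := Real.sq_sqrt (by norm_num)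
  have hr1 : 1 < r := by nlinarith
  have hr3 : r < 3 / 2 := by nlinarith
  have hsq : s ≤ r * q := by
    rw [hs, hr, hq, ← Real.sqrt_mul (by norm_num)]
    apply Real.sqrt_le_sqrt
    linarith
  have h1 : 0 ≤ 2 * q + (2 - r) * s := by
    have : 0 ≤ (2 - r) * s := mul_nonneg (by linarith) hs0
    linarith
  have h2 : √(y + w) ≤ (2 * q + (2 - r) * s) / 2 := by
    rw [Real.sqrt_le_iff]
    refine ⟨by linarith, ?_⟩
    -- `4 (y + w) <= (2q + (2-r) s)^2`
    have h3 : 0 ≤ (r - 1) * s * (r * q - s) :=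
      mul_nonneg (mul_nonneg (by linarith) hs0) (by linarith)
    have hexp : (2 * q + (2 - r) * s) ^ 2 - 4 * (y + w) = 4 * ((r - 1) * s * (r * q - s))
        + (4 * q ^ 2 - 4 * w) + (2 * s ^ 2 - 4 * y) + (r ^ 2 - 2) * (s ^ 2 - 4 * q * s) := by
      ring
    have h4 : (2 * q + (2 - r) * s) ^ 2 - 4 * (y + w) ≥ 0 := by
      rw [hexp, hr2, hq2, hs2]
      nlinarith
    nlinarith
  linarith

end Pool.Agent.Rosen
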