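import Pool.Agent.Rosen.Main
import Pool.Prelude.Def_F_9cf4a76a

set_option autoImplicit false

/-! Rosen's sequence satisfies the greedy conditions. -/

namespace Pool.Agent.Rosen

open Finset Ne729cbcb

lemma aux_eq : ∀ k i : ℕ, i ≤ k + 1 → rosenAux k i = rosen i := by
  intro k
  induction k with
  | zero =>
    intro i hi
    interval_cases i
    · rfl
    · rfl
  | succ k ih =>
    intro i hi
    rcases Nat.lt_or_ge i (k + 2) with h | h
    · have h1 : rosenAux (k + 1) i = rosenAux k i := by
        simp only [rosenAux]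
        rw [if_neg (by omega)]
      rw [h1]
      exact ih i (by omega)
    · have h2 : i = k + 2 := by omega
      subst h2
      rw [rosen]
      have : rosenAux (k + 2) (k + 2) = rosenAux (k + 1) (k + 2) := by
        simp only [rosenAux]
        rw [if_neg (by omega)]
      exact this.symm

lemma pairCount_congr {a b : ℕ → ℕ} {m : ℕ} (h : ∀ i ≤ m, a i = b i) (n : ℕ) :
    pairCount a m n = pairCount b m n := by
  unfold pairCount
  congr 1
  apply Finset.filter_congr
  intro p hp
  rw [Finset.mem_product, Finset.mem_range, Finset.mem_range] at hp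
  rw [h p.1 (by omega), h p.2 (by omega)]

lemma rosen_zero : rosen 0 = 0 := rfl
lemma rosen_one : rosen 1 = 1 := rfl

/-- pairs of indices up to `k` -/
noncomputable def C (k n : ℕ) : ℕ := pairCount rosen k n

lemma rosen_succ (k : ℕ) (hk : 1 ≤ k) : rosen (k + 1) = sInf {n : ℕ | C k n < n} := by
  obtain ⟨j, rfl⟩ : ∃ j, k = j + 1 := ⟨k - 1, by omega⟩
  have h1 : rosen (j + 1 + 1) = rosenAux (j + 1) (j + 2) := (aux_eq (j + 1) (j + 2) le_rfl).symm
  rw [h1]
  have h2 : rosenAux (j + 1) (j + 2) = sInf {n : ℕ | pairCount (rosenAux j) (j + 1) n < n} := by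
    simp only [rosenAux]
    rw [if_pos trivial]
  rw [h2]
  congr 1
  ext n
  simp only [Set.mem_setOf_eq, C]
  rw [pairCount_congr (fun i hi => aux_eq j i hi)]

lemma C_le (k n : ℕ) : C k n ≤ (k + 1) * (k + 1) := by
  unfold C pairCount
  refine (Finset.card_filter_le _ _).trans ?_
  rw [Finset.card_product, Finset.card_range]

lemma C_mono_right (k : ℕ) {m n : ℕ} (h : m ≤ n) : C k m ≤ C k n := by
  unfold C pairCount
  apply Finset.card_le_card
  intro p hp
  rw [Finset.mem_filter] at hp ⊢
  exact ⟨hp.1, hp.2.1, hp.2.2.1, hp.2.2.2.trans h⟩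

lemma C_mono_left {k l : ℕ} (h : k ≤ l) (n : ℕ) : C k n ≤ C l n := by
  unfold C pairCount
  apply Finset.card_le_card
  intro p hp
  rw [Finset.mem_filter, Finset.mem_product, Finset.mem_range, Finset.mem_range] at hp ⊢
  exact ⟨⟨by omega, by omega⟩, hp.2⟩

lemma set_nonempty (k : ℕ) : {n : ℕ | C k n < n}.Nonempty :=
  ⟨(k + 1) * (k + 1) + 1, by
    have := C_le k ((k + 1) * (k + 1) + 1)
    simp only [Set.mem_setOf_eq]; omega⟩

lemma C_lt (k : ℕ) (hk : 1 ≤ k) : C k (rosen (k + 1)) < rosen (k + 1) := by
  rw [rosen_succ k hk]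
  exact Nat.sInf_mem (set_nonempty k)

lemma le_C (k : ℕ) (hk : 1 ≤ k) {n : ℕ} (hn : n < rosen (k + 1)) : n ≤ C k n := by
  rw [rosen_succ k hk] at hn
  have := Nat.notMem_of_lt_sInf hn
  simp only [Set.mem_setOf_eq] at this
  omega

lemma C_succ_ge (k : ℕ) (b : ℕ) (hb : b = rosen (k + 1)) (hb1 : 1 ≤ b) :
    C k (b - 1) + 1 ≤ C (k + 1) b := by
  classical
  unfold C pairCount
  have hsub : insert ((0 : ℕ), k + 1) ((((Finset.range (k + 1)) ×ˢ (Finset.range (k + 1))).filter
      fun p : ℕ × ℕ => p.1 ≤ p.2 ∧ 1 ≤ p.2 ∧ rosen p.1 + rosen p.2 ≤ b - 1)) ⊆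
      (((Finset.range (k + 1 + 1)) ×ˢ (Finset.range (k + 1 + 1))).filter
      fun p : ℕ × ℕ => p.1 ≤ p.2 ∧ 1 ≤ p.2 ∧ rosen p.1 + rosen p.2 ≤ b) := by
    intro p hp
    rw [Finset.mem_insert] at hp
    rcases hp with rfl | hp
    · rw [Finset.mem_filter, Finset.mem_product, Finset.mem_range, Finset.mem_range]
      refine ⟨⟨by simp, by simp⟩, by simp, by simp, ?_⟩
      simp only [rosen_zero]
      omega
    · rw [Finset.mem_filter, Finset.mem_product, Finset.mem_range, Finset.mem_range] at hp ⊢
      exact ⟨⟨by omega, by omega⟩, hp.2.1, hp.2.2.1, by omega⟩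
  have hni : ((0 : ℕ), k + 1) ∉ (((Finset.range (k + 1)) ×ˢ (Finset.range (k + 1))).filter
      fun p : ℕ × ℕ => p.1 ≤ p.2 ∧ 1 ≤ p.2 ∧ rosen p.1 + rosen p.2 ≤ b - 1) := by
    rw [Finset.mem_filter, Finset.mem_product, Finset.mem_range, Finset.mem_range]
    rintro ⟨⟨_, h⟩, _⟩
    exact absurd h (by simp)
  have := Finset.card_le_card hsub
  rw [Finset.card_insert_of_notMem hni] at this
  exact this

lemma le_C_le (k : ℕ) (hk : 1 ≤ k) : ∀ n ≤ rosen k, n ≤ C k n := by
  induction k with
  | zero => omega
  | succ k ih =>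
    intro n hn
    rcases Nat.eq_zero_or_pos k with h0 | h1
    · subst h0
      have h2 : rosen (0 + 1) = 1 := rfl
      rw [h2] at hn
      interval_cases n
      · exact Nat.zero_le _
      · have h3 := C_succ_ge 0 1 rfl le_rfl
        exact le_trans (by omega) h3
    · rcases Nat.lt_or_ge n (rosen (k + 1)) with h2 | h2
      · exact (le_C k h1 h2).trans (C_mono_left (by omega) n)
      · have h3 : n = rosen (k + 1) := le_antisymm hn h2
        have h4 : 1 ≤ rosen (k + 1) := by
          by_contra h5
          have h6 : rosen (k + 1) = 0 := by omega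
          have := C_lt k h1
          omega
        have h5 := C_succ_ge k n h3 (by omega)
        have h6 := le_C k h1 (n := n - 1) (by omega)
        omega

lemma rosen_lt_succ (k : ℕ) : rosen k < rosen (k + 1) := by
  rcases Nat.eq_zero_or_pos k with h0 | h1
  · subst h0
    exact Nat.zero_lt_one
  · by_contra h
    push Not at h
    have h2 := le_C_le k h1 _ h
    have h3 := C_lt k h1
    omega

lemma rosen_strictMono : StrictMono rosen := strictMono_nat_of_lt_succ rosen_lt_succ

/-- Membership in Rosen's sequence. -/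
def Mem (n : ℕ) : Prop := ∃ i, rosen i = n

open Classical in
/-- Index pairs and element pairs. -/
lemma C_eq_R {m n : ℕ} (h : ∀ j, rosen j ≤ n → j ≤ m) : C m n = R Mem n := by
  unfold C pairCount R
  apply Finset.card_bij (fun p _ => (rosen p.2, rosen p.1))
  · intro p hp
    rw [Finset.mem_filter, Finset.mem_product, Finset.mem_range, Finset.mem_range] at hp
    rw [mem_P]
    obtain ⟨_, h1, h2, h3⟩ := hp
    refine ⟨⟨_, rfl⟩, ⟨_, rfl⟩, rosen_strictMono.monotone h1, ?_, by simp only; omega⟩
    have := rosen_strictMono (show 0 < p.2 by omega)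
    simp only [rosen_zero] at this
    simp only
    omega
  · rintro ⟨a, b⟩ _ ⟨c, d⟩ _ h
    simp only [Prod.mk.injEq] at h
    exact Prod.ext (rosen_strictMono.injective h.2) (rosen_strictMono.injective h.1)
  · rintro ⟨s, t⟩ hp
    rw [mem_P] at hp
    obtain ⟨⟨j, hj⟩, ⟨i, hi⟩, h1, h2, h3⟩ := hp
    simp only at hj hi h1 h2 h3
    refine ⟨(i, j), ?_, by simp only [hi, hj]⟩
    rw [Finset.mem_filter, Finset.mem_product, Finset.mem_range, Finset.mem_range]
    have hij : i ≤ j := by
      rw [← rosen_strictMono.le_iff_le, hi, hj]; exact h1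
    have hj1 : 1 ≤ j := by
      by_contra h4
      have : j = 0 := by omega
      subst this
      rw [rosen_zero] at hj
      omega
    have hjm : j ≤ m := h j (by omega)
    exact ⟨⟨by simp only; omega, by simp only; omega⟩, hij, hj1, by simp only [hi, hj]; omega⟩

lemma solutionCount_eq (x : ℕ) : solutionCount x = C x x := rfl

open Classical in
lemma solutionCount_eq_R (x : ℕ) : solutionCount x = R Mem x := by
  rw [solutionCount_eq]
  apply C_eq_R
  intro j hj
  exact le_trans rosen_strictMono.le_apply hj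

open Classical in
lemma greedy : Greedy Mem := by
  refine ⟨⟨0, rosen_zero⟩, ⟨1, rosen_one⟩, ?_, ?_, ?_⟩
  · intro n
    have h1 : n < rosen (n + 1 + 1) := lt_of_lt_of_le (by omega) (rosen_strictMono.le_apply (x := n + 1 + 1))
    have h2 := le_C (n + 1) (by omega) h1
    rw [C_eq_R (m := n + 1) (n := n)] at h2
    · exact h2
    · intro j hj
      have := lt_of_le_of_lt hj h1
      rw [rosen_strictMono.lt_iff_lt] at this
      omega
  · rintro a ⟨j, hj⟩ ha
    obtain ⟨k, rfl⟩ : ∃ k, j = k + 1 := by
      refine ⟨j - 1, ?_⟩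
      by_contra h
      have : j = 0 := by omega
      subst this
      rw [rosen_zero] at hj
      omega
    have hidx : ∀ i, rosen i ≤ a → i ≤ k + 1 := by
      intro i hi
      rw [← hj, rosen_strictMono.le_iff_le] at hi
      exact hi
    rw [← C_eq_R hidx]
    have hge : a ≤ C (k + 1) a := by
      apply le_C_le (k + 1) (by omega)
      rw [hj]
    -- upper bound
    have hle : C (k + 1) a ≤ C k a + 1 := by
      unfold C pairCount
      have hsub : (((Finset.range (k + 1 + 1)) ×ˢ (Finset.range (k + 1 + 1))).filter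
          fun p : ℕ × ℕ => p.1 ≤ p.2 ∧ 1 ≤ p.2 ∧ rosen p.1 + rosen p.2 ≤ a) ⊆
          insert ((0 : ℕ), k + 1) ((((Finset.range (k + 1)) ×ˢ (Finset.range (k + 1))).filter
          fun p : ℕ × ℕ => p.1 ≤ p.2 ∧ 1 ≤ p.2 ∧ rosen p.1 + rosen p.2 ≤ a)) := by
        intro p hp
        rw [Finset.mem_filter, Finset.mem_product, Finset.mem_range, Finset.mem_range] at hp
        rw [Finset.mem_insert, Finset.mem_filter, Finset.mem_product, Finset.mem_range,
          Finset.mem_range]
        obtain ⟨⟨h1, h2⟩, h3, h4, h5⟩ := hp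
        by_cases h6 : p.2 = k + 1
        · left
          rw [h6, hj] at h5
          have h7 : rosen p.1 = 0 := by omega
          have h8 : p.1 = 0 := by
            by_contra h9
            have := rosen_strictMono (Nat.pos_of_ne_zero h9)
            rw [rosen_zero] at this
            omega
          exact Prod.ext h8 h6
        · right
          exact ⟨⟨by omega, by omega⟩, h3, h4, h5⟩
      exact (Finset.card_le_card hsub).trans (Finset.card_insert_le _ _)
    rcases Nat.eq_zero_or_pos k with h0 | h1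
    · subst h0
      have ha1 : a = 1 := by rw [← hj]; rfl
      have : C 0 a = 0 := by
        unfold C pairCount
        rw [Finset.card_eq_zero, Finset.filter_eq_empty_iff]
        intro p hp
        rw [Finset.mem_product, Finset.mem_range, Finset.mem_range] at hp
        rintro ⟨_, h, _⟩
        omega
      omega
    · have := C_lt k h1
      rw [hj] at this
      omega
  · rintro a ⟨j, hj⟩ ha
    obtain ⟨k, rfl⟩ : ∃ k, j = k + 1 := by
      refine ⟨j - 1, ?_⟩
      by_contra h
      have : j = 0 := by omega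
      subst this
      rw [rosen_zero] at hj
      omega
    rcases Nat.eq_zero_or_pos k with h0 | h1
    · subst h0
      have ha1 : a = 1 := by rw [← hj]; rfl
      subst ha1
      rw [R, Finset.card_eq_zero]
      rw [Finset.eq_empty_iff_forall_notMem]
      intro p hp
      rw [mem_P] at hp
      omega
    · have hidx : ∀ i, rosen i ≤ a - 1 → i ≤ k := by
        intro i hi
        have : rosen i < rosen (k + 1) := by omega
        rw [rosen_strictMono.lt_iff_lt] at this
        omega
      rw [← C_eq_R hidx]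
      have h2 := C_lt k h1
      have h3 := le_C k h1 (n := a - 1) (by omega)
      have h4 := C_mono_right k (show a - 1 ≤ a by omega)
      rw [hj] at h2
      omega

/-- The bound for Rosen's sequence. -/
theorem solutionCount_le {x : ℕ} (hx : 1 ≤ x) :
    (solutionCount x : ℝ) ≤ 13 / 10 * (x : ℝ) + 3 * √(x : ℝ) := by
  classical
  rw [solutionCount_eq_R]
  exact R_le greedy hx

open Classical in
lemma S_eq_image (k n : ℕ) (h : ∀ i, rosen i ≤ n ↔ i < k) :
    S Mem n = (Finset.range k).image rosen := by
  ext t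
  rw [mem_S, Finset.mem_image]
  constructor
  · rintro ⟨h1, i, hi⟩
    refine ⟨i, ?_, hi⟩
    rw [Finset.mem_range, ← h, hi]
    exact h1
  · rintro ⟨i, hi, hi'⟩
    rw [Finset.mem_range, ← h, hi'] at hi
    exact ⟨hi, i, hi'⟩

open Classical in
lemma cA_eq (k n : ℕ) (h : ∀ i, rosen i ≤ n ↔ i < k) : cA Mem n = k := by
  rw [cA, S_eq_image k n h, Finset.card_image_of_injective _ rosen_strictMono.injective,
    Finset.card_range]

theorem rosen_lower {k : ℕ} (hk : 1 ≤ k) : k ^ 2 + 4 * k ≤ 4 * rosen k + 1 := by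
  classical
  have h1 : 1 ≤ rosen k := le_trans hk rosen_strictMono.le_apply
  have h2 := cA_quad greedy (a := rosen k) ⟨k, rfl⟩ h1
  have h3 : cA Mem (rosen k) = k + 1 := by
    apply cA_eq
    intro i
    rw [rosen_strictMono.le_iff_le]
    omega
  rw [h3] at h2
  nlinarith

theorem rosen_upper {k : ℕ} (hk : 1 ≤ k) : 2 * rosen k ≤ k * (k + 1) := by
  classical
  have h1 : 1 ≤ rosen k := le_trans hk rosen_strictMono.le_apply
  have h2 := le_cA greedy (rosen k - 1)
  have h3 : cA Mem (rosen k - 1) = k := by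
    apply cA_eq
    intro i
    rw [← rosen_strictMono.lt_iff_lt]
    omega
  rw [h3] at h2
  omega

end Pool.Agent.Rosen
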